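import Pool.Agent.N334.SC.Final

set_option autoImplicit false

/-!
# Contact numbers of totally separable packings: the sharp bound in every dimension

For every `d ≥ 1` and `n ≥ 1` we prove `c_sep(n, d) ≤ d n - d n ^ ((d - 1) / d)`: the bound known for digital
packings holds for all totally separable packings of `n` balls of diameter one in `d`-space. It is attained for
`n = k ^ d`, where `c_sep = c_Z` (Q2 of MP_3a09a4_co for these `n`, in every dimension). In three-space it yields
`c_sep(n, 3) = c_Z(n, 3)` and the exact value for `n = k ^ 3 - j` (`2 j < k`), `n = k ^ 2 (k + 1) - j` (`3 j ≤ k`)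
and `n = k (k + 1) ^ 2 - j` (`3 j ≤ k`). It gives the limit of `(d n - c_sep(n, d)) / n ^ ((d - 1) / d)`,
which is `d`, in every dimension.

Idea of the proof. To a finite set `Z` of centres and a positive definite matrix `W` attach
`T_W(Z) = |Z| tr W - (1/2) ∑ (x - y)ᵀ W (x - y)` (sum over ordered pairs of touching balls). By induction on `n`,
`T_W(Z) ≥ d n (det W / n) ^ (1/d)` whenever `Z` has the separation property that every plane through a contact
point, normal to the contact, misses all the balls: split `Z` by such a plane with normal `h` and write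
`W = W₀ + W₁`, with `W₁ = W h hᵀ W / (hᵀ W h)` of rank one; since contacts on one side of the plane make
obtuse or right angles with `h`, the contacts across the plane cost at most what `W₁` gains, and one may
share `W₁` between the two sides in the ratio of the numbers of centres. The case `W = 1` is the theorem.
-/

open Filter Topology

namespace Pool.Agent.Results.MP_3a09a4_co.SharpAllDimensions

/-- Euclidean `d`-space -/
abbrev E (d : ℕ) : Type := EuclideanSpace ℝ (Fin d)

/-- `X` is the set of centres of a packing of balls of diameter one: different balls have disjoint interiors -/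
def IsPacking {d : ℕ} (X : Finset (E d)) : Prop :=
  ∀ x ∈ X, ∀ y ∈ X, x ≠ y →
    Disjoint (interior (Metric.closedBall x (1 / 2))) (interior (Metric.closedBall y (1 / 2)))

/-- any two members are separated by a hyperplane missing the interiors of all members -/
def IsTotallySeparable {d : ℕ} (X : Finset (E d)) : Prop :=
  ∀ x ∈ X, ∀ y ∈ X, x ≠ y → ∃ (v : E d) (t : ℝ), v ≠ 0 ∧
    (∀ p ∈ Metric.closedBall x (1 / 2 : ℝ), inner ℝ v p ≤ t) ∧
    (∀ p ∈ Metric.closedBall y (1 / 2 : ℝ), t ≤ inner ℝ v p) ∧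
    (∀ z ∈ X, Disjoint {p : E d | inner ℝ v p = t} (interior (Metric.closedBall z (1 / 2))))

/-- a digital packing: all centres have integer coordinates -/
def IsDigital {d : ℕ} (X : Finset (E d)) : Prop := ∀ x ∈ X, ∀ a : Fin d, ∃ z : ℤ, x a = z

/-- unordered pairs of distinct members that touch -/
def contactPairs {d : ℕ} (X : Finset (E d)) : Set (Sym2 (E d)) :=
  {e | ∃ x ∈ X, ∃ y ∈ X, x ≠ y ∧
    (Metric.closedBall x (1 / 2) ∩ Metric.closedBall y (1 / 2)).Nonempty ∧ e = s(x, y)}

/-- the contact number -/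
noncomputable def contactNumber {d : ℕ} (X : Finset (E d)) : ℕ := (contactPairs X).ncard

/-- the contact numbers of totally separable packings of `n` balls of diameter one in `d`-space -/
def sepNumbers (d n : ℕ) : Set ℕ :=
  {m | ∃ X : Finset (E d), X.card = n ∧ IsPacking X ∧ IsTotallySeparable X ∧ contactNumber X = m}

/-- the contact numbers of digital packings of `n` balls of diameter one in `d`-space -/
def digNumbers (d n : ℕ) : Set ℕ :=
  {m | ∃ X : Finset (E d), X.card = n ∧ IsDigital X ∧ contactNumber X = m}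

/-- the largest contact number of a totally separable packing of `n` balls in `d`-space -/
noncomputable def cSep (d n : ℕ) : ℕ := sSup (sepNumbers d n)

/-- the largest contact number of a digital packing of `n` balls in `d`-space -/
noncomputable def cDig (d n : ℕ) : ℕ := sSup (digNumbers d n)

theorem sep_eq (d n : ℕ) : cSep d n = Pool.Agent.N334.SC.cSep d n := rfl

theorem dig_eq (d n : ℕ) : cDig d n = Pool.Agent.N334.SC.cDig d n := rfl

/-- **The sharp bound in all dimensions.** For all `d ≥ 1` and `n ≥ 1`: `c_sep(n, d)` and `c_Z(n, d)` are maxima,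
`c_Z ≤ c_sep ≤ d n - d n ^ ((d - 1) / d)`, and
`d n - c_Z ≤ d (n ^ (1 / d) + 1) ^ (d - 1)`; whenever `n ≤ ∏ s a` and the sum over `a` of the products
`∏ s b` (`b ≠ a`) is less than `d n ^ ((d - 1) / d) + 1`, that sum is `d n - c_sep(n, d)` and `c_sep = c_Z`;
in particular for `n = k ^ d`, and for `d = 3` and the three families of `n` displayed; and
`(d n - c_sep(n, d)) / n ^ ((d - 1) / d)` tends to `d`. -/
theorem result :
    (∀ d n : ℕ, 1 ≤ d → 1 ≤ n →
      IsGreatest (sepNumbers d n) (cSep d n) ∧ IsGreatest (digNumbers d n) (cDig d n) ∧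
      cDig d n ≤ cSep d n ∧
      (cSep d n : ℝ) ≤ d * n - d * (n : ℝ) ^ (((d : ℝ) - 1) / d) ∧
      (d : ℝ) * n - cDig d n ≤ d * ((n : ℝ) ^ ((1 : ℝ) / d) + 1) ^ (d - 1)) ∧
    (∀ d n : ℕ, 1 ≤ d → 1 ≤ n → ∀ s : Fin d → ℕ, n ≤ ∏ a, s a →
      ((∑ a, ∏ b ∈ Finset.univ.erase a, s b : ℕ) : ℝ) < d * (n : ℝ) ^ (((d : ℝ) - 1) / d) + 1 →
      cSep d n = cDig d n ∧ cSep d n + ∑ a, ∏ b ∈ Finset.univ.erase a, s b = d * n) ∧
    (∀ d k : ℕ, 1 ≤ d → 1 ≤ k →
      cSep d (k ^ d) = cDig d (k ^ d) ∧ cSep d (k ^ d) + d * k ^ (d - 1) = d * k ^ d) ∧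
    (∀ k j : ℕ, 2 * j < k →
      cSep 3 (k ^ 3 - j) = cDig 3 (k ^ 3 - j) ∧ cSep 3 (k ^ 3 - j) + 3 * k ^ 2 = 3 * (k ^ 3 - j)) ∧
    (∀ k j : ℕ, 1 ≤ k → 3 * j ≤ k →
      cSep 3 (k ^ 2 * (k + 1) - j) = cDig 3 (k ^ 2 * (k + 1) - j) ∧
      cSep 3 (k ^ 2 * (k + 1) - j) + (3 * k ^ 2 + 2 * k) = 3 * (k ^ 2 * (k + 1) - j)) ∧
    (∀ k j : ℕ, 1 ≤ k → 3 * j ≤ k →
      cSep 3 (k * (k + 1) ^ 2 - j) = cDig 3 (k * (k + 1) ^ 2 - j) ∧
      cSep 3 (k * (k + 1) ^ 2 - j) + (3 * k ^ 2 + 4 * k + 1) = 3 * (k * (k + 1) ^ 2 - j)) ∧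
    (∀ d : ℕ, 1 ≤ d →
      Tendsto (fun n : ℕ => ((d : ℝ) * n - cSep d n) / (n : ℝ) ^ (((d : ℝ) - 1) / d)) atTop (𝓝 d)) :=
  ⟨fun _ _ hd hn => ⟨Pool.Agent.N334.SC.isGreatest_sep hd hn, Pool.Agent.N334.SC.isGreatest_dig hd hn,
      Pool.Agent.N334.SC.dig_le_sep hd hn, Pool.Agent.N334.SC.sep_le hd hn, Pool.Agent.N334.SC.dig_ge hd hn⟩,
    fun _ _ hd hn s h1 h2 => Pool.Agent.N334.SC.exact_box hd hn s h1 h2,
    fun _ _ hd hk => Pool.Agent.N334.SC.exact_cube hd hk,
    fun _ _ h => Pool.Agent.N334.SC.exact_A h,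
    fun _ _ hk h => Pool.Agent.N334.SC.exact_B hk h,
    fun _ _ hk h => Pool.Agent.N334.SC.exact_C hk h,
    fun _ hd => Pool.Agent.N334.SC.tendsto_all hd⟩

end Pool.Agent.Results.MP_3a09a4_co.SharpAllDimensions
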